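import Mathlib

/-!
# 2-adic integrality of quotients of Gauss hypergeometric series

Let `D₀ = ₂F₁(1/4,1/4;1/2;4t)` and `N₀ = ₂F₁(3/4,3/4;3/2;4t)`.

* The coefficients of `D₀²` are `2^(2n-1) e_n / (2n)!` with integers `e_n`
  (`e_{n+1} = (8n²+1) e_n - (2n-1)⁴ e_{n-1}`), hence 2-adic integers.
* `y = 2 D₀'/D₀` satisfies `t(1-4t)(2y'+y²) + (1-12t) y = 1`; comparing coefficients it is
  2-integral.
* `q = N₀/D₀` satisfies `q + 2tq' = 1/((1-4t)D₀²)` (Wronskian), hence is 2-integral.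
* `D₀ · ℤ₂[[t]]` is stable under `c + 4t d/dt` and, for odd `c`, under `(c + 2t d/dt)⁻¹`; these
  operators produce all contiguous series.
-/

set_option autoImplicit false

namespace Pool.Agent.Results.MP_18c163_nt.TwoAdicIntegrality

open Finset PowerSeries

/-- The Gauss series `₂F₁(α,β;γ;4t)` as a formal power series in `t`:
`∑_n (α)_n (β)_n / ((γ)_n n!) (4t)^n`. -/
noncomputable def F (α β γ : ℚ) : ℚ⟦X⟧ := PowerSeries.mk fun n =>
  (ascPochhammer ℚ n).eval α * (ascPochhammer ℚ n).eval β /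
    ((ascPochhammer ℚ n).eval γ * (n.factorial : ℚ)) * 4 ^ n

/-- the rational numbers with odd denominator -/
def Z2 : Subring ℚ where
  carrier := {q | ¬ 2 ∣ q.den}
  mul_mem' {a b} ha hb := fun h => by
    rcases (Nat.prime_two.dvd_mul.mp (h.trans (Rat.mul_den_dvd a b))) with h | h
    · exact ha h
    · exact hb h
  one_mem' := by simp
  add_mem' {a b} ha hb := fun h => by
    rcases (Nat.prime_two.dvd_mul.mp (h.trans (Rat.add_den_dvd a b))) with h | h
    · exact ha h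
    · exact hb h
  zero_mem' := by simp
  neg_mem' {a} ha := by simpa using ha

theorem mem_Z2 (q : ℚ) : q ∈ Z2 ↔ ¬ 2 ∣ q.den := Iff.rfl

theorem int_mem (z : ℤ) : (z : ℚ) ∈ Z2 := by rw [mem_Z2]; simp

theorem nat_mem (n : ℕ) : (n : ℚ) ∈ Z2 := by rw [mem_Z2]; simp

theorem inv_mem {n : ℕ} (hn : ¬ 2 ∣ n) : ((n : ℚ))⁻¹ ∈ Z2 := by
  rw [mem_Z2, Rat.inv_natCast_den]
  split_ifs with h
  · norm_num
  · exact hn

theorem div_mem {q : ℚ} {n : ℕ} (hn : ¬ 2 ∣ n) (h : (n : ℚ) * q ∈ Z2) : q ∈ Z2 := by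
  have hn0 : (n : ℚ) ≠ 0 := by
    rintro h0
    have : n = 0 := by exact_mod_cast h0
    exact hn (by simp [this])
  have := Z2.mul_mem (inv_mem hn) h
  rwa [← mul_assoc, inv_mul_cancel₀ hn0, one_mul] at this

/-- power series with coefficients in `Z2` -/
def IS : Subring ℚ⟦X⟧ where
  carrier := {f | ∀ n, coeff n f ∈ Z2}
  mul_mem' {a b} ha hb := fun n => by
    rw [coeff_mul]
    exact Z2.sum_mem fun x _ => Z2.mul_mem (ha _) (hb _)
  one_mem' := fun n => by
    rw [coeff_one]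
    split_ifs
    · exact Z2.one_mem
    · exact Z2.zero_mem
  add_mem' {a b} ha hb := fun n => by
    rw [map_add]
    exact Z2.add_mem (ha n) (hb n)
  zero_mem' := fun n => by simp
  neg_mem' {a} ha := fun n => by
    rw [map_neg]
    exact Z2.neg_mem (ha n)

theorem mem_IS (f : ℚ⟦X⟧) : f ∈ IS ↔ ∀ n, coeff n f ∈ Z2 := Iff.rfl

theorem X_mem : (X : ℚ⟦X⟧) ∈ IS := fun n => by
  rw [coeff_X]
  split_ifs
  · exact Z2.one_mem
  · exact Z2.zero_mem

theorem inv_IS {f : ℚ⟦X⟧} (hf : f ∈ IS) (h0 : constantCoeff f = 1) : f⁻¹ ∈ IS := by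
  intro n
  induction n using Nat.strong_induction_on with
  | _ n ih =>
    rw [coeff_inv, h0]
    split_ifs with hn
    · simp
    · refine Z2.mul_mem ?_ (Z2.sum_mem fun x _ => ?_)
      · simp
      · split_ifs with hx
        · exact Z2.mul_mem (hf _) (ih _ hx)
        · exact Z2.zero_mem

theorem deriv_IS {f : ℚ⟦X⟧} (hf : f ∈ IS) : derivative ℚ f ∈ IS := fun n => by
  rw [coeff_derivative]
  exact Z2.mul_mem (hf _) (by exact_mod_cast nat_mem (n + 1))

theorem coeff_F (α β γ : ℚ) (n : ℕ) : coeff n (F α β γ) =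
    (ascPochhammer ℚ n).eval α * (ascPochhammer ℚ n).eval β /
    ((ascPochhammer ℚ n).eval γ * (n.factorial : ℚ)) * 4 ^ n := by
  rw [F, coeff_mk]

theorem F_zero (α β γ : ℚ) : constantCoeff (F α β γ) = 1 := by
  rw [← coeff_zero_eq_constantCoeff_apply, coeff_F]
  simp

theorem poch_ne {γ : ℚ} (hγ : 0 < γ) (n : ℕ) : (ascPochhammer ℚ n).eval γ ≠ 0 :=
  (ascPochhammer_pos n γ hγ).ne'

/-- the recursion of the coefficients -/
theorem coeff_F_succ {α β γ : ℚ} (hγ : 0 < γ) (n : ℕ) :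
    (n + 1) * (γ + n) * coeff (n + 1) (F α β γ) = 4 * (α + n) * (β + n) * coeff n (F α β γ) := by
  rw [coeff_F, coeff_F]
  simp only [ascPochhammer_succ_eval, Nat.factorial_succ]
  have h1 := poch_ne hγ n
  have h2 : γ + n ≠ 0 := by positivity
  have h3 : (n.factorial : ℚ) ≠ 0 := by exact_mod_cast n.factorial_ne_zero
  have h4 : (n : ℚ) + 1 ≠ 0 := by positivity
  push_cast
  field_simp
  ring

theorem ascPoch_shift (α : ℚ) (n : ℕ) :
    α * (ascPochhammer ℚ n).eval (α + 1) = (α + n) * (ascPochhammer ℚ n).eval α := by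
  have h1 := ascPochhammer_succ_eval (S := ℚ) n α
  have h2 : (ascPochhammer ℚ (n + 1)).eval α = α * (ascPochhammer ℚ n).eval (α + 1) := by
    rw [ascPochhammer_succ_left]
    simp [Polynomial.eval_comp]
  rw [← h2, h1]
  ring

/-- `α ↦ α + 1` -/
theorem shift_α (α β γ : ℚ) :
    C α * F (α + 1) β γ = C α * F α β γ + X * derivative ℚ (F α β γ) := by
  ext n
  have e : coeff n (X * derivative ℚ (F α β γ)) = n * coeff n (F α β γ) := by
    rcases n with _ | n
    · simp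
    · rw [coeff_succ_X_mul, coeff_derivative]
      push_cast
      ring
  rw [map_add, coeff_C_mul, coeff_C_mul, e, coeff_F, coeff_F]
  have := ascPoch_shift α n
  linear_combination (ascPochhammer ℚ n).eval β /
    ((ascPochhammer ℚ n).eval γ * (n.factorial : ℚ)) * 4 ^ n * this

theorem F_symm (α β γ : ℚ) : F α β γ = F β α γ := by
  ext n
  rw [coeff_F, coeff_F]
  ring

/-- `γ ↦ γ + 1` -/
theorem shift_γ (α β : ℚ) {γ : ℚ} (hγ : 0 < γ) :
    C γ * F α β (γ + 1) + X * derivative ℚ (F α β (γ + 1)) = C γ * F α β γ := by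
  ext n
  have e : coeff n (X * derivative ℚ (F α β (γ + 1))) = n * coeff n (F α β (γ + 1)) := by
    rcases n with _ | n
    · simp
    · rw [coeff_succ_X_mul, coeff_derivative]
      push_cast
      ring
  rw [map_add, coeff_C_mul, coeff_C_mul, e, coeff_F, coeff_F]
  have := ascPoch_shift γ n
  have h1 := poch_ne hγ n
  have h2 := poch_ne (show (0 : ℚ) < γ + 1 by linarith) n
  have h3 : (n.factorial : ℚ) ≠ 0 := by exact_mod_cast n.factorial_ne_zero
  field_simp
  linear_combination (-((ascPochhammer ℚ n).eval α * (ascPochhammer ℚ n).eval β)) * this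

theorem num (k : ℕ) [k.AtLeastTwo] : (OfNat.ofNat k : ℚ⟦X⟧) = C (OfNat.ofNat k : ℚ) :=
  (map_ofNat (C (R := ℚ)) k).symm

theorem coeff_XD (f : ℚ⟦X⟧) (n : ℕ) : coeff n (X * derivative ℚ f) = n * coeff n f := by
  rcases n with _ | n
  · simp
  · rw [coeff_succ_X_mul, coeff_derivative]
    push_cast
    ring

theorem coeff_DD (f : ℚ⟦X⟧) (n : ℕ) : coeff n (X * derivative ℚ (derivative ℚ f)) =
    n * (n + 1) * coeff (n + 1) f := by
  rw [coeff_XD, coeff_derivative]
  ring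

theorem coeff_XXDD (f : ℚ⟦X⟧) (n : ℕ) : coeff n (X * (X * derivative ℚ (derivative ℚ f))) =
    n * (n - 1) * coeff n f := by
  rcases n with _ | n
  · simp
  · rw [coeff_succ_X_mul, coeff_DD]
    push_cast
    ring

/-- `₂F₁(1/4,1/4;1/2;4t)` -/
noncomputable def D : ℚ⟦X⟧ := F (1 / 4) (1 / 4) (1 / 2)

/-- `₂F₁(3/4,3/4;3/2;4t)` -/
noncomputable def N : ℚ⟦X⟧ := F (3 / 4) (3 / 4) (3 / 2)

theorem D_zero : constantCoeff D = 1 := F_zero _ _ _

theorem N_zero : constantCoeff N = 1 := F_zero _ _ _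

theorem ode_D : 4 * (X * derivative ℚ (derivative ℚ D)) + 2 * derivative ℚ D =
    16 * (X * (X * derivative ℚ (derivative ℚ D))) + 24 * (X * derivative ℚ D) + D := by
  ext n
  have h := coeff_F_succ (α := 1 / 4) (β := 1 / 4) (γ := 1 / 2) (by norm_num) n
  rw [show (4 : ℚ⟦X⟧) = C (4 : ℚ) from num 4, show (2 : ℚ⟦X⟧) = C (2 : ℚ) from num 2,
    show (16 : ℚ⟦X⟧) = C (16 : ℚ) from num 16, show (24 : ℚ⟦X⟧) = C (24 : ℚ) from num 24]
  simp only [map_add, coeff_C_mul, coeff_XXDD, coeff_XD, coeff_derivative]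
  rw [← D] at h
  linear_combination 4 * h

theorem ode_N : 4 * (X * derivative ℚ (derivative ℚ N)) + 6 * derivative ℚ N =
    16 * (X * (X * derivative ℚ (derivative ℚ N))) + 40 * (X * derivative ℚ N) + 9 * N := by
  ext n
  have h := coeff_F_succ (α := 3 / 4) (β := 3 / 4) (γ := 3 / 2) (by norm_num) n
  rw [show (4 : ℚ⟦X⟧) = C (4 : ℚ) from num 4, show (6 : ℚ⟦X⟧) = C (6 : ℚ) from num 6,
    show (16 : ℚ⟦X⟧) = C (16 : ℚ) from num 16, show (40 : ℚ⟦X⟧) = C (40 : ℚ) from num 40,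
    show (9 : ℚ⟦X⟧) = C (9 : ℚ) from num 9]
  simp only [map_add, coeff_C_mul, coeff_XXDD, coeff_XD, coeff_derivative]
  rw [← N] at h
  linear_combination 4 * h

/-- the Wronskian -/
theorem wronskian : (1 - 4 * X) * (D * (N + 2 * X * derivative ℚ N) -
    2 * X * N * derivative ℚ D) = 1 := by
  have h1 := ode_D
  have h2 := ode_N
  refine derivative.ext ?_ ?_
  · have e4 : derivative ℚ (4 : ℚ⟦X⟧) = 0 := by
      rw [show (4 : ℚ⟦X⟧) = C (4 : ℚ) from num 4, derivative_C]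
    have e2 : derivative ℚ (2 : ℚ⟦X⟧) = 0 := by
      rw [show (2 : ℚ⟦X⟧) = C (2 : ℚ) from num 2, derivative_C]
    have e1 : derivative ℚ (1 : ℚ⟦X⟧) = 0 := by
      rw [show (1 : ℚ⟦X⟧) = C (1 : ℚ) by simp, derivative_C]
    have e0 : derivative ℚ (X : ℚ⟦X⟧) = 1 := derivative_X
    simp only [Derivation.leibniz, map_sub, map_add, e4, e2, e1, e0, smul_eq_mul]
    have h2ne : (2 : ℚ⟦X⟧) ≠ 0 := by
      rw [show (2 : ℚ⟦X⟧) = C (2 : ℚ) from num 2]
      simp
    apply mul_left_cancel₀ h2ne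
    linear_combination D * h2 - N * h1
  · simp [D_zero, N_zero]

theorem D_ne : D ≠ 0 := by
  intro h
  have := D_zero
  rw [h] at this
  simp at this

theorem D_mul_inv : D * D⁻¹ = 1 := PowerSeries.mul_inv_cancel _ (by rw [D_zero]; norm_num)

/-- the square of `D` -/
noncomputable def G : ℚ⟦X⟧ := D * D

theorem dG : derivative ℚ G = 2 * (D * derivative ℚ D) := by
  rw [G]
  simp only [Derivation.leibniz, smul_eq_mul]
  ring

theorem ddG : derivative ℚ (derivative ℚ G) =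
    2 * (derivative ℚ D * derivative ℚ D + D * derivative ℚ (derivative ℚ D)) := by
  rw [dG]
  have e2 : derivative ℚ (2 : ℚ⟦X⟧) = 0 := by
    rw [show (2 : ℚ⟦X⟧) = C (2 : ℚ) from num 2, derivative_C]
  simp only [Derivation.leibniz, smul_eq_mul, e2]
  ring

/-- an auxiliary combination -/
noncomputable def H : ℚ⟦X⟧ := 4 * (X * derivative ℚ (derivative ℚ G)) + 2 * derivative ℚ G -
  16 * (X * (X * derivative ℚ (derivative ℚ G))) - 24 * (X * derivative ℚ G) - 2 * G

theorem H_eq : H = 8 * (X * (1 - 4 * X)) * (derivative ℚ D * derivative ℚ D) := by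
  have h1 := ode_D
  rw [H, ddG, dG, G]
  linear_combination 2 * D * h1

theorem dH : derivative ℚ H - 4 * (X * derivative ℚ H) =
    4 * H + 2 * derivative ℚ G - 8 * (X * derivative ℚ G) := by
  have h1 := ode_D
  have e1 : derivative ℚ (1 : ℚ⟦X⟧) = 0 := by
    rw [show (1 : ℚ⟦X⟧) = C (1 : ℚ) by simp, derivative_C]
  have e4 : derivative ℚ (4 : ℚ⟦X⟧) = 0 := by
    rw [show (4 : ℚ⟦X⟧) = C (4 : ℚ) from num 4, derivative_C]
  have e8 : derivative ℚ (8 : ℚ⟦X⟧) = 0 := by
    rw [show (8 : ℚ⟦X⟧) = C (8 : ℚ) from num 8, derivative_C]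
  have e0 : derivative ℚ (X : ℚ⟦X⟧) = 1 := derivative_X
  have h2 : derivative ℚ H = 32 * X * (derivative ℚ D * derivative ℚ D) +
      4 * (D * derivative ℚ D) := by
    rw [H_eq]
    simp only [Derivation.leibniz, smul_eq_mul, map_sub, e1, e4, e8, e0]
    linear_combination 4 * derivative ℚ D * h1
  rw [h2, H_eq, dG]
  ring

theorem coeff_H (n : ℕ) : coeff n H = (n + 1) * (4 * n + 2) * coeff (n + 1) G -
    (16 * n ^ 2 + 8 * n + 2) * coeff n G := by
  rw [H]
  rw [show (4 : ℚ⟦X⟧) = C (4 : ℚ) from num 4, show (2 : ℚ⟦X⟧) = C (2 : ℚ) from num 2,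
    show (16 : ℚ⟦X⟧) = C (16 : ℚ) from num 16, show (24 : ℚ⟦X⟧) = C (24 : ℚ) from num 24]
  simp only [map_add, map_sub, coeff_C_mul, coeff_XXDD, coeff_XD, coeff_derivative]
  ring

theorem rec_G (n : ℕ) : 2 * (n + 1) * (n + 2) * (2 * n + 3) * coeff (n + 2) G =
    4 * (n + 1) * (8 * (n + 1) ^ 2 + 1) * coeff (n + 1) G - 8 * (2 * n + 1) ^ 3 * coeff n G := by
  have h := congrArg (coeff n) dH
  rw [show (4 : ℚ⟦X⟧) = C (4 : ℚ) from num 4, show (2 : ℚ⟦X⟧) = C (2 : ℚ) from num 2,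
    show (8 : ℚ⟦X⟧) = C (8 : ℚ) from num 8] at h
  simp only [map_add, map_sub, coeff_C_mul, coeff_XD, coeff_derivative, coeff_H] at h
  push_cast at h
  linear_combination h

/-- the integers `e_n` -/
def e : ℕ → ℤ
  | 0 => 2
  | 1 => 1
  | n + 2 => (8 * ((n : ℤ) + 1) ^ 2 + 1) * e (n + 1) - (2 * (n : ℤ) + 1) ^ 4 * e n

theorem coeff_G : ∀ n : ℕ, coeff n G * (2 * ((2 * n).factorial : ℚ)) = 4 ^ n * (e n : ℚ)
  | 0 => by
    rw [coeff_zero_eq_constantCoeff_apply, G, map_mul, D_zero]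
    simp [e]
  | 1 => by
    have h1 : coeff 1 D = 1 / 2 := by
      have := coeff_F_succ (α := 1 / 4) (β := 1 / 4) (γ := 1 / 2) (by norm_num) 0
      rw [← D] at this
      rw [coeff_zero_eq_constantCoeff_apply, D_zero] at this
      norm_num at this
      linarith
    have h0 : coeff 0 D = 1 := by rw [coeff_zero_eq_constantCoeff_apply, D_zero]
    have : coeff 1 G = 1 := by
      rw [G, coeff_mul]
      simp [Finset.Nat.antidiagonal_succ, h1, D_zero]
      norm_num
    rw [this]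
    norm_num [e, Nat.factorial]
  | n + 2 => by
    have ih1 := coeff_G (n + 1)
    have ih0 := coeff_G n
    have hr := rec_G n
    have f2 : ((2 * (n + 2)).factorial : ℚ) =
        (2 * n + 4) * (2 * n + 3) * ((2 * (n + 1)).factorial : ℚ) := by
      rw [show 2 * (n + 2) = (2 * (n + 1)) + 1 + 1 by ring, Nat.factorial_succ, Nat.factorial_succ]
      push_cast
      ring
    have f1 : ((2 * (n + 1)).factorial : ℚ) =
        (2 * n + 2) * (2 * n + 1) * ((2 * n).factorial : ℚ) := by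
      rw [show 2 * (n + 1) = (2 * n) + 1 + 1 by ring, Nat.factorial_succ, Nat.factorial_succ]
      push_cast
      ring
    have hne : ((n : ℚ) + 1) ≠ 0 := by positivity
    apply mul_left_cancel₀ hne
    rw [e, f2]
    push_cast
    rw [pow_succ] at ih1
    rw [pow_succ, pow_succ]
    have ih0' : coeff n G * (2 * ((2 * (n + 1)).factorial : ℚ)) =
        (2 * n + 2) * (2 * n + 1) * (4 ^ n * (e n : ℚ)) := by
      rw [f1, ← ih0]; ring
    linear_combination 2 * ((2 * (n + 1)).factorial : ℚ) * hr +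
      4 * (n + 1) * (8 * (n + 1) ^ 2 + 1) * ih1 - 8 * (2 * n + 1) ^ 3 * ih0'

theorem G_mem : G ∈ IS := by
  intro n
  have h := coeff_G n
  rcases Nat.eq_zero_or_pos n with rfl | hn
  · rw [coeff_zero_eq_constantCoeff_apply, G, map_mul, D_zero, mul_one]
    exact Z2.one_mem
  · have hlt := Nat.emultiplicity_two_factorial_lt (n := 2 * n) (by omega)
    have hfin : FiniteMultiplicity 2 (2 * n).factorial :=
      Nat.finiteMultiplicity_iff.mpr ⟨by norm_num, Nat.factorial_pos _⟩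
    obtain ⟨u, hu, hodd⟩ := hfin.exists_eq_pow_mul_and_not_dvd
    set v := multiplicity 2 (2 * n).factorial with hv
    have hv' : v < 2 * n := by
      rw [hfin.emultiplicity_eq_multiplicity] at hlt
      exact_mod_cast hlt
    refine div_mem hodd ?_
    have h4 : (4 : ℚ) ^ n = 2 ^ (v + 1) * 2 ^ (2 * n - 1 - v) := by
      rw [← pow_add, show v + 1 + (2 * n - 1 - v) = 2 * n by omega, pow_mul]
      norm_num
    have hu' : (((2 * n).factorial : ℕ) : ℚ) = 2 ^ v * (u : ℚ) := by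
      rw [hu]; push_cast; ring
    rw [hu', h4] at h
    have h2 : (2 : ℚ) ^ (v + 1) ≠ 0 := by positivity
    have h3 : (u : ℚ) * coeff n G = 2 ^ (2 * n - 1 - v) * (e n : ℚ) := by
      apply mul_left_cancel₀ h2
      rw [← mul_assoc, ← mul_assoc] at *
      rw [← h]
      ring
    rw [h3]
    exact Z2.mul_mem (by exact_mod_cast nat_mem (2 ^ (2 * n - 1 - v))) (int_mem _)

/-- twice the logarithmic derivative of `D` -/
noncomputable def y : ℚ⟦X⟧ := 2 * derivative ℚ D * D⁻¹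

theorem y_mul : y * D = 2 * derivative ℚ D := by
  rw [y, mul_assoc, mul_comm D⁻¹, D_mul_inv, mul_one]

/-- the Riccati equation -/
theorem riccati : 2 * (X * derivative ℚ y) + y = 1 + 12 * (X * y) +
    8 * (X * (X * derivative ℚ y)) + 4 * (X * (X * (y * y))) - X * (y * y) := by
  have h1 := ode_D
  have hy := y_mul
  have hy' : derivative ℚ y * D + y * derivative ℚ D = 2 * derivative ℚ (derivative ℚ D) := by
    have := congrArg (derivative ℚ) hy
    have e2 : derivative ℚ (2 : ℚ⟦X⟧) = 0 := by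
      rw [show (2 : ℚ⟦X⟧) = C (2 : ℚ) from num 2, derivative_C]
    simp only [Derivation.leibniz, smul_eq_mul, e2] at this
    linear_combination this
  apply mul_right_cancel₀ (mul_ne_zero D_ne D_ne)
  linear_combination (2 * (X - 4 * (X * X)) * D) * hy' +
    ((X - 4 * (X * X)) * (y * D) + (1 - 12 * X) * D) * hy + D * h1

theorem odd_succ (n : ℕ) : ¬ 2 ∣ 2 * n + 1 := by omega

theorem coeff_num_mul (k : ℕ) [k.AtLeastTwo] (f : ℚ⟦X⟧) (n : ℕ) :
    coeff n (OfNat.ofNat k * f) = OfNat.ofNat k * coeff n f := by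
  rw [num k, coeff_C_mul]

theorem num_mem (k : ℕ) [k.AtLeastTwo] : (OfNat.ofNat k : ℚ) ∈ Z2 := by
  have := nat_mem k
  rwa [← Nat.cast_ofNat]

theorem y_mem : y ∈ IS := by
  intro n
  induction n using Nat.strong_induction_on with
  | _ n ih =>
    have h := congrArg (coeff n) riccati
    rw [map_add, coeff_num_mul, coeff_XD] at h
    have h2 : ((2 * n + 1 : ℕ) : ℚ) * coeff n y = coeff n (1 + 12 * (X * y) +
      8 * (X * (X * derivative ℚ y)) + 4 * (X * (X * (y * y))) - X * (y * y)) := by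
      rw [← h]; push_cast; ring
    refine div_mem (odd_succ n) ?_
    rw [h2]
    rcases n with _ | k
    · rw [show (12 : ℚ⟦X⟧) = C (12 : ℚ) from num 12, show (8 : ℚ⟦X⟧) = C (8 : ℚ) from num 8,
        show (4 : ℚ⟦X⟧) = C (4 : ℚ) from num 4]
      simp only [map_add, map_sub, coeff_C_mul, coeff_zero_X_mul]
      simp
    · have hyy : ∀ m ≤ k, coeff m (y * y) ∈ Z2 := fun m hm => by
        rw [coeff_mul]
        refine Z2.sum_mem fun x hx => ?_
        have := Finset.HasAntidiagonal.mem_antidiagonal.mp hx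
        exact Z2.mul_mem (ih _ (by omega)) (ih _ (by omega))
      have hXyy : coeff k (X * (y * y)) ∈ Z2 := by
        rcases k with _ | k
        · simp
        · rw [coeff_succ_X_mul]; exact hyy k (by omega)
      rw [show (12 : ℚ⟦X⟧) = C (12 : ℚ) from num 12, show (8 : ℚ⟦X⟧) = C (8 : ℚ) from num 8,
        show (4 : ℚ⟦X⟧) = C (4 : ℚ) from num 4]
      simp only [map_add, map_sub, coeff_C_mul, coeff_succ_X_mul, coeff_XD]
      refine Z2.sub_mem (Z2.add_mem (Z2.add_mem (Z2.add_mem ?_ ?_) ?_) ?_) (hyy k le_rfl)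
      · rw [coeff_one]; simp
      · exact Z2.mul_mem (num_mem 12) (ih k (by omega))
      · exact Z2.mul_mem (num_mem 8) (Z2.mul_mem (nat_mem k) (ih k (by omega)))
      · exact Z2.mul_mem (num_mem 4) hXyy

/-- the quotient `N₀ / D₀` -/
noncomputable def ν : ℚ⟦X⟧ := N * D⁻¹

theorem ν_mul : ν * D = N := by rw [ν, mul_assoc, mul_comm D⁻¹, D_mul_inv, mul_one]

theorem num_IS (k : ℕ) [k.AtLeastTwo] : (OfNat.ofNat k : ℚ⟦X⟧) ∈ IS := by
  have : ((k : ℕ) : ℚ⟦X⟧) ∈ IS := natCast_mem IS k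
  rwa [← Nat.cast_ofNat]

theorem ν_eq : ν + 2 * (X * derivative ℚ ν) = ((1 - 4 * X) * G)⁻¹ := by
  have hw := wronskian
  rw [← ν_mul] at hw
  simp only [Derivation.leibniz, smul_eq_mul] at hw
  have h1 : (ν + 2 * (X * derivative ℚ ν)) * ((1 - 4 * X) * G) = 1 := by
    rw [G]
    linear_combination hw
  have h0 : constantCoeff ((1 - 4 * X) * G) ≠ 0 := by
    rw [G]
    simp [D_zero]
  exact (PowerSeries.eq_inv_iff_mul_eq_one h0).mpr h1

theorem ν_mem : ν ∈ IS := by
  intro n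
  refine div_mem (odd_succ n) ?_
  have h := congrArg (coeff n) ν_eq
  rw [map_add, coeff_num_mul, coeff_XD] at h
  have h2 : ((2 * n + 1 : ℕ) : ℚ) * coeff n ν = coeff n (((1 - 4 * X) * G)⁻¹) := by
    rw [← h]; push_cast; ring
  rw [h2]
  refine inv_IS (IS.mul_mem (IS.sub_mem IS.one_mem (IS.mul_mem (num_IS 4) X_mem)) G_mem) ?_ n
  rw [G]
  simp [D_zero]

/-- the module `D₀ ℤ₂[[t]]` -/
def M (f : ℚ⟦X⟧) : Prop := ∃ β ∈ IS, f = β * D

theorem M_D : M D := ⟨1, IS.one_mem, by rw [one_mul]⟩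

theorem M_N : M N := ⟨ν, ν_mem, ν_mul.symm⟩

theorem C_mem {q : ℚ} (h : q ∈ Z2) : (C q : ℚ⟦X⟧) ∈ IS := fun n => by
  rw [coeff_C]
  split_ifs
  · exact h
  · exact Z2.zero_mem

/-- stability under `α ↦ α + 1`, `4α` odd -/
theorem M_α {α β γ : ℚ} {k : ℕ} (hk : ¬ 2 ∣ k) (hα : 4 * α = k) (h : M (F α β γ)) :
    M (F (α + 1) β γ) := by
  obtain ⟨b, hb, hF⟩ := h
  have hk0 : (k : ℚ) ≠ 0 := by
    intro h0
    have : k = 0 := by exact_mod_cast h0
    exact hk (by simp [this])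
  have hs := shift_α α β γ
  refine ⟨C ((k : ℚ)⁻¹) * (C (k : ℚ) * b + (4 * (X * derivative ℚ b) + 2 * (X * (b * y)))), ?_, ?_⟩
  · refine IS.mul_mem (C_mem (inv_mem hk)) (IS.add_mem (IS.mul_mem (C_mem (nat_mem k)) hb)
      (IS.add_mem (IS.mul_mem (num_IS 4) (IS.mul_mem X_mem (deriv_IS hb)))
        (IS.mul_mem (num_IS 2) (IS.mul_mem X_mem (IS.mul_mem hb y_mem)))))
  · have hd : derivative ℚ (F α β γ) = b * derivative ℚ D + D * derivative ℚ b := by
      rw [hF]
      simp only [Derivation.leibniz, smul_eq_mul]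
    have hy := y_mul
    have h4 : (4 : ℚ⟦X⟧) * C α = C (k : ℚ) := by
      rw [show (4 : ℚ⟦X⟧) = C (4 : ℚ) from num 4, ← map_mul, hα]
    have hcc : C ((k : ℚ)⁻¹) * C (k : ℚ) = (1 : ℚ⟦X⟧) := by
      rw [← map_mul, inv_mul_cancel₀ hk0, map_one]
    rw [hd, hF] at hs
    have key : C (k : ℚ) * F (α + 1) β γ =
        (C (k : ℚ) * b + (4 * (X * derivative ℚ b) + 2 * (X * (b * y)))) * D := by
      rw [← h4]
      linear_combination 4 * hs - 2 * X * b * hy
    calc F (α + 1) β γ = (C ((k : ℚ)⁻¹) * C (k : ℚ)) * F (α + 1) β γ := by rw [hcc, one_mul]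
      _ = C ((k : ℚ)⁻¹) * (C (k : ℚ) * F (α + 1) β γ) := by ring
      _ = _ := by rw [key]; ring

theorem M_β {α β γ : ℚ} {k : ℕ} (hk : ¬ 2 ∣ k) (hβ : 4 * β = k) (h : M (F α β γ)) :
    M (F α (β + 1) γ) := by
  rw [F_symm] at h ⊢
  exact M_α hk hβ h

/-- stability under `γ ↦ γ + 1`, `2γ` odd -/
theorem M_γ {α β γ : ℚ} {k : ℕ} (hk : ¬ 2 ∣ k) (hγ0 : 0 < γ) (hγ : 2 * γ = k)
    (h : M (F α β γ)) : M (F α β (γ + 1)) := by
  obtain ⟨a, ha, hF⟩ := h
  have hs := shift_γ α β hγ0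
  set g := F α β (γ + 1) with hg
  set b := g * D⁻¹ with hb
  have hbD : b * D = g := by rw [hb, mul_assoc, mul_comm D⁻¹, D_mul_inv, mul_one]
  have hd : derivative ℚ g = b * derivative ℚ D + D * derivative ℚ b := by
    rw [← hbD]
    simp only [Derivation.leibniz, smul_eq_mul]
  have h2 : (2 : ℚ⟦X⟧) * C γ = C (k : ℚ) := by
    rw [show (2 : ℚ⟦X⟧) = C (2 : ℚ) from num 2, ← map_mul, hγ]
  have hy := y_mul
  have key : C (k : ℚ) * b + 2 * (X * derivative ℚ b) = C (k : ℚ) * a - X * (b * y) := by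
    apply mul_right_cancel₀ D_ne
    rw [hd, hF, ← hbD] at hs
    rw [← h2]
    linear_combination 2 * hs + X * b * hy
  refine ⟨b, ?_, hbD.symm⟩
  intro n
  induction n using Nat.strong_induction_on with
  | _ n ih =>
    have h := congrArg (coeff n) key
    rw [map_add, map_sub, coeff_num_mul, coeff_XD, coeff_C_mul, coeff_C_mul] at h
    have h3 : ((2 * n + k : ℕ) : ℚ) * coeff n b = (k : ℚ) * coeff n a - coeff n (X * (b * y)) := by
      rw [← h]; push_cast; ring
    refine div_mem (n := 2 * n + k) (by omega) ?_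
    rw [h3]
    refine Z2.sub_mem (Z2.mul_mem (nat_mem k) (ha n)) ?_
    rcases n with _ | m
    · simp
    · rw [coeff_succ_X_mul, coeff_mul]
      refine Z2.sum_mem fun x hx => ?_
      have := Finset.HasAntidiagonal.mem_antidiagonal.mp hx
      exact Z2.mul_mem (ih _ (by omega)) (y_mem _)

theorem M_all_D (d e f : ℕ) : M (F (1 / 4 + d) (1 / 4 + e) (1 / 2 + f)) := by
  induction f with
  | zero =>
    induction e with
    | zero =>
      induction d with
      | zero =>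
        have : F (1 / 4 + ((0 : ℕ) : ℚ)) (1 / 4 + ((0 : ℕ) : ℚ)) (1 / 2 + ((0 : ℕ) : ℚ)) = D := by
          rw [D]; norm_num
        rw [this]
        exact M_D
      | succ d ih =>
        have := M_α (k := 4 * d + 1) (by omega) (by push_cast; ring) ih
        rw [show (1 / 4 : ℚ) + ((d + 1 : ℕ) : ℚ) = 1 / 4 + d + 1 by push_cast; ring]
        exact this
    | succ e ih =>
      have := M_β (k := 4 * e + 1) (by omega) (by push_cast; ring) ih
      rw [show (1 / 4 : ℚ) + ((e + 1 : ℕ) : ℚ) = 1 / 4 + e + 1 by push_cast; ring]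
      exact this
  | succ f ih =>
    have := M_γ (k := 2 * f + 1) (by omega) (by positivity) (by push_cast; ring) ih
    rw [show (1 / 2 : ℚ) + ((f + 1 : ℕ) : ℚ) = 1 / 2 + f + 1 by push_cast; ring]
    exact this

theorem M_all_N (a b c : ℕ) : M (F (3 / 4 + a) (3 / 4 + b) (3 / 2 + c)) := by
  induction c with
  | zero =>
    induction b with
    | zero =>
      induction a with
      | zero =>
        have : F (3 / 4 + ((0 : ℕ) : ℚ)) (3 / 4 + ((0 : ℕ) : ℚ)) (3 / 2 + ((0 : ℕ) : ℚ)) = N := by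
          rw [N]; norm_num
        rw [this]
        exact M_N
      | succ a ih =>
        have := M_α (k := 4 * a + 3) (by omega) (by push_cast; ring) ih
        rw [show (3 / 4 : ℚ) + ((a + 1 : ℕ) : ℚ) = 3 / 4 + a + 1 by push_cast; ring]
        exact this
    | succ b ih =>
      have := M_β (k := 4 * b + 3) (by omega) (by push_cast; ring) ih
      rw [show (3 / 4 : ℚ) + ((b + 1 : ℕ) : ℚ) = 3 / 4 + b + 1 by push_cast; ring]
      exact this
  | succ c ih =>
    have := M_γ (k := 2 * c + 3) (by omega) (by positivity) (by push_cast; ring) ih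
    rw [show (3 / 2 : ℚ) + ((c + 1 : ℕ) : ℚ) = 3 / 2 + c + 1 by push_cast; ring]
    exact this

/-- Q1 holds: all coefficients of the quotient
`₂F₁(3/4+a,3/4+b;3/2+c;4t) / ₂F₁(1/4+d,1/4+e;1/2+f;4t)` have odd denominators. -/
theorem result (a b c d e f n : ℕ) :
    Odd (coeff n (F (3 / 4 + a) (3 / 4 + b) (3 / 2 + c) *
      (F (1 / 4 + d) (1 / 4 + e) (1 / 2 + f))⁻¹)).den := by
  obtain ⟨μ, hμ, hN⟩ := M_all_N a b c
  obtain ⟨β, hβ, hD⟩ := M_all_D d e f
  have h0 : constantCoeff β = 1 := by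
    have := F_zero (1 / 4 + d) (1 / 4 + e) (1 / 2 + f)
    rw [hD, map_mul, D_zero, mul_one] at this
    exact this
  have hq : F (3 / 4 + a) (3 / 4 + b) (3 / 2 + c) *
      (F (1 / 4 + d) (1 / 4 + e) (1 / 2 + f))⁻¹ = μ * β⁻¹ := by
    rw [hN, hD, PowerSeries.mul_inv_rev]
    calc μ * D * (D⁻¹ * β⁻¹) = μ * (D * D⁻¹) * β⁻¹ := by ring
      _ = _ := by rw [D_mul_inv, mul_one]
  rw [hq]
  have := IS.mul_mem hμ (inv_IS hβ h0) n
  rw [mem_Z2] at this
  exact Nat.not_even_iff_odd.mp fun h => this h.two_dvd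

end Pool.Agent.Results.MP_18c163_nt.TwoAdicIntegrality
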